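import Pool.Agent.Helper76.CW.CwE

set_option autoImplicit false

/-!
# Splaying against executions that rearrange the keys requested recently

`Tr`, `keys`, `IsBST`, `dep`, `splay`, `costSplay`, `toRoot` are those of
`Pool.Agent.H581R2.SplayDef`; `Recent`, `Top`, `RotIn`, `CacheRun` are defined in
`Pool.Agent.Helper76.CW.CwM`.

Consider executions with a *cache*: a set of keys which form a part at the top of the tree and are
among the `k` distinct keys requested last. The requested key may be moved to the root and put
into the cache, or left where it is; then the part of the tree that consists of the keys in the
cache is rearranged in an arbitrary way, by any number of rotations which are not charged; then
keys at the bottom of this part may leave the cache. The tree below the cache consists of what the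
execution has made of the keys requested earlier, so this is a rich class of executions for `k > 1`;
for `k = 1` only the executions remain which move the requested key to the root or do nothing
(`MoveToRoot`), and if `k` is at least the number of keys there is, after every key has been
moved to the root once, no restriction at all.

Theorem.  Splaying is `18 (log k + 2)`-competitive against these executions, without any additive
term.  In particular it is `O(1)`-competitive against executions which rearrange the `k` keys
requested last, for every constant `k`. (For `k` equal to the number of keys the bound is the
trivial one.)

Proof.  The keys of the execution's tree get levels, which count the *groups* on the search path: all
keys in the cache at any time during a phase of `k` requests have level `0`, and those of them which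
are not in the cache at the end of the phase form, between two keys that are, a new group of at
most `2 k` keys. The rank of an interval of keys is `log c - Λ j`, where `j` is the least level, `c`
the number of keys of this level in the interval, and `Λ = log (2 k) + 1`. This rank satisfies the
inequality which is needed for the analysis of splaying (two disjoint intervals inside a third one
cannot both have its rank), and rearranging the cache does not change it. When the groups are
formed at the end of a phase, the potential increases only at those nodes of the splay tree whose
subtree contains a key in the cache, and there are less than `2 k` of them, since the keys in the
cache have been requested recently (`WorkingSetDepth`).
-/

namespace Pool.Agent.Results.MP_c42954_lc.CacheExecutions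

open Pool.Agent.H581R2.Splay Pool.Agent.Helper76.CW

theorem result : ∀ k : ℕ, 1 ≤ k → ∀ (T : Tr) (X : List ℕ) (c : ℕ), IsBST T →
    (∀ x ∈ X, x ∈ keys T) → CacheRun k [] T ∅ X c →
    costSplay T X ≤ 18 * (Nat.log 2 k + 2) * c :=
  fun _ hk _ _ _ hb hX h => cache_main hk hb hX h

end Pool.Agent.Results.MP_c42954_lc.CacheExecutions
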