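import Pool.Agent.Helper48.PW.Log
import Pool.Agent.N724.TW.T_VAL
import Pool.Agent.N724.TW.T_INV

set_option autoImplicit false

/-!
# Fewer than `c log n` relabellings do not suffice

`Tr`, `keys`, `IsBST`, `dep`, `splay`, `costSplay` are those of `Pool.Agent.H581R2.SplayDef`;
`optAny K X` (`Pool.Agent.TH49.Spl.Defs`) is the least cost of an execution for the requests `X`, over
all initial trees with the keys `K`; `rel σ X` (`Pool.Agent.N724.TW.Stm`) is the sequence `X` with every
key `x` replaced by `σ x`.

Proof. Let `K` relabellings be given. Choose any key `x₁`; by the pigeonhole principle there are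
`n / 2 ^ K` other keys which, under each of the relabellings, lie on one side of `x₁`. Go on with these
keys; if `n ≥ 2 ^ ((K + 1) m)` this gives keys `x₁, ..., x_{m+1}`, and under each of the relabellings
there is a search tree in which they form a path which starts at the root. The requests go up and down
this path, again and again. By the theorem on itineraries they are served at cost `O(1)` per request
under each of the given relabellings; but their working set bound is `Ω(log m)` per request, and this
is the cost under a suitable relabelling `ρ` by the result LogManyRelabellings.
-/

namespace Pool.Agent.Results.MP_c42954_lc.FewRelabellingsFail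

open Pool.Agent.H581R2.Splay Pool.Agent.TH49.Spl Pool.Agent.N724.TW Pool.Agent.Helper48.PW

/-- For every `C` there is `c > 0` such that for all `n` and `K ≤ c log₂ n` and all permutations
`f 0, ..., f (K - 1)` of the keys `0, ..., n - 1` there are a request sequence `X`, in which every key is
requested, and a permutation `ρ` such that for every initial tree `T` and every `j` the cost of
splaying `ρ X` from `T` is greater than `C (OPT(f j X) + n log₂ n)`, where OPT may choose its initial
tree. -/
theorem result :
    ∀ C : ℝ, ∃ c : ℝ, 0 < c ∧ ∀ n K : ℕ, (K : ℝ) ≤ c * Real.logb 2 n →
      ∀ f : Fin K → Equiv.Perm (Fin n), ∃ (X : List (Fin n)) (ρ : Equiv.Perm (Fin n)),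
        (∀ x : Fin n, x ∈ X) ∧ ∀ T : Tr, keys T = List.range n → ∀ j : Fin K,
          C * (optAny (List.range n) (rel (f j) X) + n * Real.logb 2 n) <
            costSplay T (rel ρ X) :=
  fun C => lower holds_VAL holds_INV C

end Pool.Agent.Results.MP_c42954_lc.FewRelabellingsFail
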