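import Pool.Agent.Helper48.PW.Log
import Pool.Agent.N724.TW.T_VAL
import Pool.Agent.N724.TW.T_INV

set_option autoImplicit false

/-!
# Splay trees and `O(log n)` relabellings

`Tr`, `keys`, `IsBST`, `dep`, `splay`, `costSplay` are those of `Pool.Agent.H581R2.SplayDef`;
`optAny K X` (`Pool.Agent.TH49.Spl.Defs`) is the least cost of an execution for the requests `X`, over
all initial trees with the keys `K`; `rel σ X` (`Pool.Agent.N724.TW.Stm`) is the sequence `X` with every
key `x` replaced by `σ x`.

Proof. Fix a level of the dyadic interleave bound, with `M` nodes, each with two halves of `k` keys,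
`2 k M ≤ n`. For a set `Q` of `s` keys, `s k ≥ c n`, the probability that `Q` misses `j` given (half,
relabelling) pairs under independent random relabellings is at most `exp (-c j)`, so the probability
that more than `K M / a` of the `2 K M` pairs are missed is at most `2 ^ (2 K M) exp (-c K M / a)`. With
`c = 4 a` and `K` a constant times `a log n` this beats the number `n ^ s` of the sets `Q`, at all levels
simultaneously. For a family without such bad sets cut the requests into pairs of consecutive windows
with exactly `s` distinct keys each: at most `2 s` requests per pair have working set number at least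
`s`, and the pair contributes one to the interleave bound at every node whose left half is hit by the
first window and whose right half is hit by the second one. By Markov's inequality, for all but a
proportion `4 / a` of the members the interleave bound is, up to the factor `O(c)`, at least the
working set bound, which does not depend on the names of the keys.
-/

namespace Pool.Agent.Results.MP_c42954_lc.LogManyRelabellings

open Pool.Agent.H581R2.Splay Pool.Agent.TH49.Spl Pool.Agent.N724.TW Pool.Agent.Helper48.PW

/-- For all `n ≥ 2` and `0 < δ ≤ 1` there are `K ≤ (90 / δ) log₂ n` permutations `f 0, ..., f (K - 1)` of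
the keys `0, ..., n - 1` such that for EVERY request sequence `X` and all but at most `δ K` of the `j` the
following holds for all permutations `ρ` and all initial trees `T`: the cost of splaying `ρ X` is at
most `(4360 OPT(f j X) + 1120 n log₂ n) / δ`, and if every key is requested in `X` then it is at most
`(11880 / δ) OPT(f j X)`, where OPT may choose its initial tree. -/
theorem result :
    ∀ n : ℕ, 2 ≤ n → ∀ δ : ℝ, 0 < δ → δ ≤ 1 →
      ∃ (K : ℕ) (f : Fin K → Equiv.Perm (Fin n)), 1 ≤ K ∧ (K : ℝ) ≤ 90 / δ * Real.logb 2 n ∧
        ∀ X : List (Fin n), ∃ B : Finset (Fin K), (B.card : ℝ) ≤ δ * K ∧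
          ∀ j : Fin K, j ∉ B → ∀ (ρ : Equiv.Perm (Fin n)) (T : Tr), keys T = List.range n →
            (costSplay T (rel ρ X) : ℝ) ≤ (4360 * optAny (List.range n) (rel (f j) X) +
              1120 * (n * Real.logb 2 n)) / δ ∧
            ((∀ x : Fin n, x ∈ X) → (costSplay T (rel ρ X) : ℝ) ≤
              11880 / δ * optAny (List.range n) (rel (f j) X)) :=
  fun n hn δ h0 h1 => upper holds_VAL holds_INV n hn δ h0 h1

end Pool.Agent.Results.MP_c42954_lc.LogManyRelabellings
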