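import Pool.Agent.Helper48.PW.Asm
import Pool.Agent.Helper48.PW.Aff
import Pool.Agent.N724.TW.T_VAL
import Pool.Agent.N724.TW.T_INV

set_option autoImplicit false

/-!
# Splay trees on sequences relabelled by a pairwise uniform family

`Tr`, `keys`, `IsBST`, `dep`, `splay`, `costSplay` are those of `Pool.Agent.H581R2.SplayDef`;
`optAny K X` (`Pool.Agent.TH49.Spl.Defs`) is the least cost of an execution for the requests `X`, over
all initial trees with the keys `K`; `rel σ X` (`Pool.Agent.N724.TW.Stm`) is the sequence `X` with every
key `x` replaced by `σ x`; `Uni2` (`Pool.Agent.Helper48.PW.Defs`) are the pairwise uniform families of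
permutations.

Proof of (1). Fix a level of the dyadic interleave bound, with `M` nodes, each with two halves of `k`
keys, `2 k M ≤ n`. Cut the sequence into pairs of consecutive windows with exactly `s` distinct keys
each, `s k ≥ c n`. A request whose working set number is at least `s` is the first request of its key
in its window, so there are at most `2 s` such requests per pair. By the second moment method, which
needs only pairwise uniformity, the keys of the first window miss the left half of a given node under
at most a proportion `1 / c` of the `σ`, and the same for the second window and the right half; if both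
are hit, the node contributes one to the interleave bound. By Markov's inequality all but a proportion
`4 / c` of the `σ` hit at least half of all (level, node, pair), and then the interleave bound for
`σ X` is, up to the factor `O(c)`, at least the working set bound, which does not depend on the names
of the keys.
-/

namespace Pool.Agent.Results.MP_c42954_lc.PairwiseUniformRelabellings

open Pool.Agent.H581R2.Splay Pool.Agent.TH49.Spl Pool.Agent.N724.TW Pool.Agent.Helper48.PW

/-- (1) Let `S` be a pairwise uniform family of permutations of the keys `0, ..., n - 1`, `0 < δ ≤ 1`
and `X` a request sequence. For all but at most `δ |S|` of the `σ ∈ S` the following holds for all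
permutations `ρ` and all initial trees `T`: the cost of splaying `ρ X` is at most
`(1090 OPT(σ X) + 280 n log₂ n) / δ`, and if every key is requested in `X` then it is at most
`(2970 / δ) OPT(σ X)`, where OPT may choose its initial tree.
(2) For every prime power `q` there is such a family with `q (q - 1)` members on `n = q` keys (the
affine maps of the field with `q` elements). -/
theorem result :
    (∀ (n : ℕ) (S : Finset (Equiv.Perm (Fin n))), Uni2 S → ∀ δ : ℝ, 0 < δ → δ ≤ 1 →
      ∀ X : List (Fin n), ∃ B : Finset (Equiv.Perm (Fin n)), B ⊆ S ∧
        (B.card : ℝ) ≤ δ * S.card ∧
        ∀ σ ∈ S, σ ∉ B → ∀ (ρ : Equiv.Perm (Fin n)) (T : Tr), keys T = List.range n →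
          (costSplay T (rel ρ X) : ℝ) ≤ (1090 * optAny (List.range n) (rel σ X) +
            280 * (n * Real.logb 2 n)) / δ ∧
          ((∀ x : Fin n, x ∈ X) → (costSplay T (rel ρ X) : ℝ) ≤
            2970 / δ * optAny (List.range n) (rel σ X))) ∧
    (∀ p k : ℕ, p.Prime → k ≠ 0 →
      ∃ S : Finset (Equiv.Perm (Fin (p ^ k))), Uni2 S ∧ S.card = p ^ k * (p ^ k - 1)) :=
  ⟨fun _ S hS δ h0 h1 X => main_delta holds_VAL holds_INV S hS δ h0 h1 X,
    fun p k hp hk => exists_uni2 p k hp hk⟩

end Pool.Agent.Results.MP_c42954_lc.PairwiseUniformRelabellings
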